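import Pool.Agent.Run7.h2.OB.SG

set_option autoImplicit false

/-!
# `Ω^dRB = Ω^And` for motives of unitary type: places with different signatures

Let `A` be an abelian variety over `ℚ̄` and let `M` be an André motive over `ℚ̄` in the tensor category
generated by `h^1(A)` and the Tate motives, with the matrix `P` of periods. The torsor `Ω^dRB_M` is a
torsor, defined over `ℚ̄`, of the algebraic group `G_dRB(M)` over `ℚ`, and it contains the comparison
isomorphism. It is the smallest such torsor: if `G ⊆ GL(M_B)` is an algebraic group over `ℚ` then `G` is
the stabilizer of a line in a tensor construction of `M_B`, so a torsor of `G` over `ℚ̄` which contains the
comparison isomorphism defines a de Rham-Betti subobject in this construction, which is respected by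
`Ω^dRB_M`. So `Ω^dRB_M` is the intersection `omegaDRB P` of all torsors `G T⁻¹` (`torsor G T`), `G` an
algebraic group over `ℚ` and `T` a matrix with algebraic entries, such that `P` is a point
of `G T⁻¹`. By theorems of Deligne and André the motivic Galois group of `M` is its Mumford-Tate
group, and `Ω^And_M` is the torsor `MT(M) P` (`omegaAnd w B P`). The inclusion of `Ω^dRB_M` in `Ω^And_M`
is known for all `M`. We prove the inclusion of `Ω^And_M` in `Ω^dRB_M`, so the equality of Q1, for
many motives `M` of unitary type.

**The places** (`UnitaryPlaces`). Let `z i`, `i < k`, be central endomorphisms of `A`, skew-symmetric for the
polarization, such that all elements of the centre of `End(A) ⊗ ℚ` are polynomials in `z i` on the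
image of `z i`; they may be equal or different. For example let `A` be isogenous to `∏ A_j ^ (m_j)`,
with simple and pairwise not isogenous `A_j` of type IV, and let `z i` be a generator, with
`z̄ = - z`, of the CM field `F_j`, the centre of `End(A_j) ⊗ ℚ`, for some `j`. Let `a i` be real numbers such that
both `i a` and `- i a` are eigenvalues of `z i` on the tangent space of `A`, `a = a i`: a place at which the
unitary group of the commutant `B_j` of `End(A_j)` is not compact, of a signature `(r, s)`
with `r, s ≥ 1`. We assume that each place is of one of the following types:

* the signature at the place `a i` is `(1, n)` (the eigenspace of `i a` on the tangent space is a simple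
  module over `End(A)`), and `i a` and `- i a` are separated;
* `F_j` is a field, and *some* place of `F_j` has these two properties; the signature at the place `a i` is
  arbitrary;
* `B_j` is a division algebra of a prime degree; the signature at the place `a i` is arbitrary.

The separation of `i a` and `- i a` says that `B_j` does not descend to a subfield `F'` of `F_j` on which `i a`
and `- i a` agree (so `F'` is contained in the maximal totally real subfield). It is satisfied
if the order of `B_j` in the Brauer group of `F_j` is larger than two: an algebra which descends to a
totally real subfield is isomorphic to its opposite algebra, by the involution.

Different places have *different signatures*, or they are separated. Here `(r, s)` and `(r', s')` are different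
if `r : s ≠ r' : s'` and `r : s ≠ s' : r'` (`DifferentSignatures`; the multiplicities of `i a` and `- i a` on the
tangent space are proportional to `r` and `s`).

**The new point** is that places with different signatures need no arithmetic hypothesis at all: in
the previous results (`ProductsOfBalls`, `OneBallPlace`, `DivisionAlgebrasOfPrimeDegree`,
`ProductsOfUnitaryTypes`) all pairs of different places, in the same or in different factors, have to
be separated, that is, the algebras `B_j` must not descend to certain subfields, respectively the
centres must be independent. Now let `F` be any CM field, let `B` be of order larger than two in the
Brauer group of `F`, let the signature be `(1, N - 1)` at one place, and let the unordered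
signatures `{r, s}` at the other places at which the unitary group is not compact be pairwise different and
different from `{1, N - 1}`. Then the theorem applies, for all CM fields `F`. It applies to all
abelian varieties `A` such that `B` is a division algebra of prime degree and the indefinite
signatures `{r, s}` are pairwise different, and to all products of such abelian varieties such that the
signatures of the places of different factors are different, for arbitrary centres.

The proof of the new point: assume that the subalgebra `𝔮` of the Lie algebra `𝔤` of the Hodge group which
belongs to a torsor of a group `G` links two places. As `𝔮` is irreducible at both places the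
link is an invertible complex linear or antilinear map between the standard representations. The
pull back of the hermitian form of the second place is invariant under `𝔮`, so it is a real
multiple of the form of the first place, and the signatures agree up to the order. The
signature of the form and the multiplicities on the tangent space are compared by means of the
double centralizer theorem (Burnside).

Nothing is assumed about periods: `AbVar` is the description of an abelian variety over `ℚ̄` by theta
functions (see `Pool/Agent/Y102/AVDefs.lean`), and the transcendence theorems which are used are proved
in this repository. The definitions are in `Pool/Agent/Run7/h2/OB/PUDefs.lean` and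
`Pool/Agent/Run7/h2/OB/SGDefs.lean`.
-/

namespace Pool.Agent.Results.MP_470b79_ag.DifferentSignatures

open Module Matrix Pool.Agent.Y102 Run7.h2.OB.PU

/-- **Theorem.** Let `z i`, `a i` be unitary places of the abelian variety `A`, such that different places
have different signatures or are separated. Let `M` be a motive in the tensor category generated by
`h^1(A)` and the Tate motives, with the matrix `P` of periods and the complex structure `N`, such that
the part of the Hodge group of `A` which acts trivially on the eigenspaces for `± i a` acts trivially on the
Mumford-Tate domain of `M`. Then:

1. For all elements `Z` of the derived algebra of the Lie algebra of the Hodge group of `M` and all complex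
   numbers `t` the matrix `exp (t Z) P` is a point of `Ω^dRB_M`.
2. If the centre acts trivially on `M`, or if the centre of the Lie algebra of the Hodge group
   of `A` is rigid, then `Ω^And_M` is contained in `Ω^dRB_M`. -/
theorem result {g s n k : ℕ} (A : AbVar g) (z : Fin k → Module.End ℚ A.H1) (a : Fin k → ℝ)
    (hA : UnitaryPlaces A z a) (r : Fin s → ℕ) (w : Fin s → ℤ)
    (B : Fin n → Tensors A r) (P : Matrix (Fin n) (Fin n) ℂ) (hM : IsMotive w B P)
    (N : Matrix (Fin n) (Fin n) ℝ) (hN : IsComplexStructure B N)
    (hD : DomainOf z (fun j => {a j}) B N) :
    (∀ Z ∈ derived (hodgeLie N), ∀ t : ℂ,
      NormedSpace.exp (t • Z.map fun q => (q : ℂ)) * P ∈ omegaDRB P) ∧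
    (CentreActsTrivially B ∨ RigidCentre A → omegaAnd w B P ⊆ omegaDRB P) :=
  omega_main A z a hA r w B P hM N hN hD

end Pool.Agent.Results.MP_470b79_ag.DifferentSignatures
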