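import Pool.Agent.Run7.h10.QS.J8

/-!
The theorem of Noether and Lefschetz for de Rham-Betti classes, on all tensor spaces.

Let `M → B` be a family of motives, or of any de Rham-Betti objects with a Gauss-Manin connection, over an open subset `B` of
affine space, defined over `ℚ̄`. Let `P(z)` be its period matrix over an open subset `U` of `B(ℂ)`, with respect to a flat basis of
the Betti realisations and an algebraic basis of the de Rham realisations: `∂P / ∂z_x = A_x P` with matrices `A_x` of rational
functions over `ℚ̄`. The period matrix of the tensor space `T = M ^ ⊗ a ⊗ M^∨ ^ ⊗ b` is the tensor product of `a` copies of `P` and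
`b` copies of the transpose of the inverse of `P`. For an algebraic point `s` of `U` a de Rham-Betti class of `T_s` is a vector `v`
of rational numbers, or more generally with entries in a number field `K`, such that the entries of `P_T(s) v` are algebraic (in
`K`). We prove:

*At almost all algebraic points `s` of `U` all de Rham-Betti classes on all the tensor spaces of `M_s`, of degree `a + b` and height
up to a bound which tends to infinity, are restrictions of global ones*: `v` is a de Rham-Betti class of `T_z` for **every**
algebraic point `z` of `U`; moreover the entries of the section `P_T(z) v` of the de Rham realisations are algebraic functions of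
`z`, so after a finite base change the flat section `v` is a de Rham-Betti class of the whole family. This is the analogue for de
Rham-Betti classes of the theorem that the Hodge classes on the tensor spaces of the fibres outside of the Noether-Lefschetz (Hodge)
locus are, after a finite base change, restrictions of flat sections. There is no hypothesis on the family, on its monodromy or on
its de Rham-Betti group.

Hence the statement that the de Rham-Betti classes are motivated spreads out in bounded height: if the de Rham-Betti classes on
the tensor spaces of **one** fibre over an algebraic point of `U` are motivated, then by André's deformation principle the global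
classes are motivated, and so all the de Rham-Betti classes of bounded degree and height on the tensor spaces of `M_s` are
motivated, for almost all algebraic `s`.

The proof. Choose complex constants `η_i` algebraically independent over the field `L` of the functions `P_ij`. A class
`(v, w)`, `P(s) v = w`, gives the linear relation `∑_j v_j ∑_i η_i P_ij(s) = ∑_i w_i η_i`. With the norm of the linear form with
indeterminate coefficients and the Nullstellensatz (library `Run7/h10/QS`) we show that at almost all points `s` the vector `v`
satisfies every linear equation over `ℚ̄` which is satisfied by all vectors `a` of algebraic functions for which `P a` is a vector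
of algebraic functions. These vectors are a space stable under the derivations of `L`, so it is generated by constant vectors:
a vector with the smallest number of nonzero entries, one of which is `1`, has derivative zero.
-/

open NumberField

namespace Pool.Agent.Results.MP_470b79_ag.NoetherLefschetz

open Pool.Agent.Run7.h10.QS (Few Points)

section
variable {X : Type} [Fintype X] {ι : Type} [Fintype ι]

/-- The matrix `P` is flat for a connection over `ℚ̄`: for every coordinate `x` there are a nonzero polynomial `q` and a matrix
`B` of polynomials with algebraic coefficients such that `q ∂P / ∂z_x = B P` on `U`. -/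
def IsFlat [DecidableEq X] (U : Set (X → ℂ)) (P : (X → ℂ) → Matrix ι ι ℂ) : Prop :=
  ∀ x : X, ∃ (q : MvPolynomial X (algebraicClosure ℚ ℂ)) (B : ι → ι → MvPolynomial X (algebraicClosure ℚ ℂ)),
    q ≠ 0 ∧ ∀ i j, ∀ z ∈ U, MvPolynomial.aeval z q * fderiv ℂ (fun z => P z i j) z (Pi.single x 1) =
      ∑ k, MvPolynomial.aeval z (B i k) * P z k j

/-- The period matrix of the tensor space `M ^ ⊗ a ⊗ M^∨ ^ ⊗ b`, where `P` is the period matrix of `M` and `Q` its inverse: the
rows belong to the basis of the de Rham realisation and the columns to the basis of the Betti realisation which consist of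
the tensor products of `a` basis vectors of `M` and `b` vectors of the dual basis. -/
def tensorSpace (a b : ℕ) (P Q : Matrix ι ι ℂ) : Matrix ((Fin a → ι) × (Fin b → ι)) ((Fin a → ι) × (Fin b → ι)) ℂ :=
  fun r c => (∏ l, P (r.1 l) (c.1 l)) * ∏ l, Q (c.2 l) (r.2 l)

/-- The entries of `P(z) v` are algebraic functions: each satisfies a polynomial equation, not identically zero, with
coefficients in the ring of the polynomials in `z` with algebraic coefficients. -/
def IsAlgSection (U : Set (X → ℂ)) (P : (X → ℂ) → Matrix ι ι ℂ) (v : ι → ℂ) : Prop :=
  ∀ i, ∃ p : Polynomial (MvPolynomial X (algebraicClosure ℚ ℂ)), p ≠ 0 ∧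
    ∀ z ∈ U, p.eval₂ (MvPolynomial.aeval z : _ →ₐ[algebraicClosure ℚ ℂ] ℂ).toRingHom (∑ j, P z i j * v j) = 0

/-- The vector `v` is a de Rham-Betti class of the whole family: the entries of `P(z) v` are algebraic functions of `z`, and
they are algebraic numbers at all points `z` of `U` with algebraic coordinates. -/
def IsGlobal (U : Set (X → ℂ)) (P : (X → ℂ) → Matrix ι ι ℂ) (v : ι → ℂ) : Prop :=
  IsAlgSection U P v ∧ ∀ z ∈ U, (∀ x, IsAlgebraic ℚ (z x)) → ∀ i, IsAlgebraic ℚ (∑ j, P z i j * v j)

/-- The points `s` over `K` with a de Rham-Betti class on a tensor space which is not global: there are `a + b ≤ k` and vectors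
`v`, `w` of integers of `K`, all conjugates of which are at most `T ^ k`, with `P_T(s) v = w`, where `P_T` is the period matrix of
the tensor space of type `(a, b)`, such that `v` is not a de Rham-Betti class of the whole family. -/
def HasNewClass (K : Type) [Field K] [NumberField K] (U : Set (X → ℂ)) (P Q : (X → ℂ) → Matrix ι ι ℂ)
    (io : K →+* ℂ) (k : ℕ) (T : ℝ) : Set (X → K) :=
  {s | s ∈ Points K U io k T ∧ ∃ a b : ℕ, a + b ≤ k ∧ ∃ v w : (Fin a → ι) × (Fin b → ι) → 𝓞 K,
    (∀ j (φ : K →+* ℂ), ‖φ (v j : K)‖ ≤ T ^ k) ∧ (∀ j (φ : K →+* ℂ), ‖φ (w j : K)‖ ≤ T ^ k) ∧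
    (∀ i, ∑ j, tensorSpace a b (P fun x => io (s x)) (Q fun x => io (s x)) i j * io (v j : K) = io (w i : K)) ∧
    ¬IsGlobal U (fun z => tensorSpace a b (P z) (Q z)) fun j => io (v j : K)}

end

/-- Let `U` be a nonempty open connected subset of `ℂ ^ X` and `P` an invertible analytic matrix on `U` (with the inverse `Q`),
which is flat for a connection over `ℚ̄`: `∂P / ∂z_x = A_x P` with matrices `A_x` of rational functions with algebraic
coefficients. There are few algebraic points `s` with a de Rham-Betti class on a tensor space which is not the restriction of a
global one: there is `ω → ∞` such that for all large `T` and all number fields `K` of degree at most `ω T`, embedded in `ℂ`, the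
points `s` of `U` over `K` of height at most `T` (of norm at most `ω T` and distance at least `1 / ω T` from the complement of `U`)
such that for some `a + b ≤ ω T` there are vectors `v`, `w` of integers of `K` of size at most `T ^ ω T` with `P_T(s) v = w`, `P_T`
the period matrix of the tensor space of type `(a, b)`, but `v` is not a de Rham-Betti class of the whole family, lie on at most
`T ^ (1 / ω T)` hypersurfaces of degree at most `T ^ (1 / ω T)`, and there are at most `T ^ (1 / ω T) * N ^ (|X| - 1)` of them,
`N` being the number of elements of `K` of height at most `T`. -/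
theorem result {X : Type} [Fintype X] [DecidableEq X] [Nonempty X] {ι : Type} [Fintype ι] [DecidableEq ι]
    {U : Set (X → ℂ)} (hUo : IsOpen U) (hU : IsPreconnected U) (hne : U.Nonempty) {P Q : (X → ℂ) → Matrix ι ι ℂ}
    (hP : ∀ i j, AnalyticOnNhd ℂ (fun z => P z i j) U) (hQ : ∀ i j, AnalyticOnNhd ℂ (fun z => Q z i j) U)
    (hPQ : ∀ z ∈ U, P z * Q z = 1) (hflat : IsFlat U P) :
    Few fun K _ _ io k T => HasNewClass K U P Q io k T := by
  have hev : ∀ (z : X → ℂ), (MvPolynomial.aeval z : _ →ₐ[algebraicClosure ℚ ℂ] ℂ).toRingHom =
      Pool.Agent.Run7.h10.QS.evz z := by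
    intro z
    apply MvPolynomial.ringHom_ext
    · intro a
      rw [Pool.Agent.Run7.h10.QS.evz_C]
      exact MvPolynomial.aeval_C z a
    · intro i
      rw [Pool.Agent.Run7.h10.QS.evz_X]
      exact MvPolynomial.aeval_X z i
  have hev' : ∀ (z : X → ℂ) (a : MvPolynomial X (algebraicClosure ℚ ℂ)), MvPolynomial.aeval z a =
      Pool.Agent.Run7.h10.QS.evz z a := fun z a => RingHom.congr_fun (hev z) a
  choose q B hq hB using hflat
  have hF : Pool.Agent.Run7.h10.QS.FlatOn U q P := by
    refine ⟨hP, B, ?_⟩
    intro x i j z hz
    have h1 := hB x i j z hz
    simp only [hev'] at h1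
    exact h1
  have hPQ' : ∀ z ∈ U, ∀ i j, ∑ k, P z i k * Q z k j = if i = j then 1 else 0 := by
    intro z hz i j
    rw [← Matrix.mul_apply, hPQ z hz, Matrix.one_apply]
  refine Pool.Agent.Run7.h10.QS.few_mono (Pool.Agent.Run7.h10.QS.tens_few hU hUo hne q hq hF hQ hPQ') ?_
  rintro K _ _ io k T s ⟨h1, a, b, hab, v, w, h2, h3, h4, h5⟩
  refine ⟨h1, a, b, hab, v, w, h2, h3, h4, fun h6 => h5 ⟨?_, ?_⟩⟩
  · intro i
    obtain ⟨p, hp, hp0⟩ := h6 i
    refine ⟨p, hp, fun z hz => ?_⟩
    rw [hev]
    exact hp0 z hz
  · intro z hz ha i
    exact Pool.Agent.Run7.h10.QS.algFun_value hUo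
      (Pool.Agent.Run7.h10.QS.sum_an (hF.tens hUo hQ hPQ' a b).1 _ i) (h6 i) z hz ha

end Pool.Agent.Results.MP_470b79_ag.NoetherLefschetz
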