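import Pool.Agent.Run7.h358.A1.Tor
import Pool.Agent.Run7.h358.A1.Pt

set_option autoImplicit false

/-!
# The de Rham-Betti conjecture for the motives of abelian varieties with Hodge group of type `A_1`

Let `A` be an abelian variety over `ℚ̄` and let `M` be any André motive over `ℚ̄` in the tensor category
generated by `h^1(A)` and the Tate motives, with the matrix `P` of periods. The de Rham-Betti object of `M`
consists of the rational vector space `M_B = ℚ ^ n`, the vector space `M_dR = ℚ̄ ^ n` and the comparison
isomorphism `P : M_dR ⊗ ℂ → M_B ⊗ ℂ`.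

* The group `dRBGroup P` is the smallest algebraic group `G ⊆ GL(M_B)` over `ℚ` such that the comparison
  isomorphism is a point of a torsor of `G` defined over `ℚ̄` (part 1 of the theorem says that it is an
  algebraic group with such a torsor; this torsor is `Ω_M^{dRB}`, and `dRBGroup P` is the Tannakian group
  `G_dRB(M)`).
* `IsDRBHom`: a rational linear map `M_B^{⊗ b} → M_B^{⊗ a}` which is a homomorphism of de Rham-Betti
  objects, that is, it is given by an algebraic matrix `M_dR^{⊗ b} → M_dR^{⊗ a}`.
* `IsDRBSub`: a subspace of `M_B^{⊗ a}` (with a basis) which is the Betti realization of a de Rham-Betti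
  subobject: it is spanned over `ℂ` by the image of a subspace of `M_dR^{⊗ a}`.

By theorems of Deligne and André the motivic Galois group of `M` is the Mumford-Tate group `MT(M)`. The
motives `M` in question are closed under duals, Tate twists, sums and tensor products, so statements on
homomorphisms between the tensor powers of all `M`, and on their subobjects, are statements on all tensor
spaces: for example a de Rham-Betti class of `M` is a homomorphism `1 = M^{⊗ 0} → M`.

**Theorem.** Let `A` be an abelian variety over `ℚ̄` whose Hodge group is of type `A_1` (with the condition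
on pairs of factors explained below, which is satisfied after the replacement of `A` by a larger abelian
variety), and let `M` be any motive in the tensor category generated by `h^1(A)` and the Tate motives. Let
`x` be an element of the derived group of `MT(M)` of the form `exp (c N)`, where `N` is the action on `M` of an
element of the derived algebra of the Lie algebra of the Hodge group of `A` (these elements generate the
derived group of `MT(M)`, as it is connected), or, if the condition `ControlledCentre` holds, an arbitrary element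
of `MT(M)` (`InPart`). Then:

* `x` is an element of `dRBGroup P`;
* `x` commutes with all homomorphisms of de Rham-Betti objects `M^{⊗ b} → M^{⊗ a}`;
* `x` stabilizes all de Rham-Betti subobjects of `M^{⊗ a}`.

So if `ControlledCentre` holds then, for all `M` in the tensor category generated by `h^1(A)`: the realization
functor of the motives to de Rham-Betti objects is full, and the de Rham-Betti subobjects and (by duality)
quotients of the realizations are realizations of motives, `G_dRB(M) = MT(M)` is reductive, and
`Ω_M^{dRB} = Ω_M^{And}`: the answer to Q1 is positive for `M`. In particular this is so for all motives `M` in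
the tensor category generated by `h^1(A)`, for *all* abelian varieties `A` over `ℚ̄` whose Hodge group is of
type `A_1`, if the centres of the endomorphism algebras of the simple factors of type IV are abelian over
`ℚ` or if there are no such factors (for example for the abelian varieties of Mumford, for the abelian
varieties which belong to Shimura curves, and for all products of elliptic curves), and for all simple
abelian fourfolds of type IV(2,1).

In the literature I know the theorems of Kreutz, Shen and Vial (products of elliptic curves, some abelian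
surfaces, Hodge structures of K3 type with small transcendental part) and of Ji (simple abelian fourfolds
of type IV with complex multiplication, or such that `End(A) ⊗ ℚ` is a quadratic field).

Nothing is assumed about periods: `AbVar` is the description of an abelian variety over `ℚ̄` by theta
functions (see `Pool/Agent/Y102/AVDefs.lean`, where it is explained why every abelian variety has it),
and the transcendence theorems which are used, the theorem of Schneider and Lang and the
transcendence of `π`, are proved in this repository.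

## Type `A_1`

Let `𝔤` be the Lie algebra of the endomorphisms of `H_1(A, ℚ)` which annihilate all classes that are Hodge
classes and de Rham-Betti classes (`InLie`); by the theorem of Deligne it is the Lie algebra of the Hodge
group of `A`. The Hodge group is *of type `A_1`* if the derived algebra of `𝔤 ⊗ ℂ` is a sum of Lie algebras
`sl(2)`. By the classification of the symplectic representations of Hodge groups (Deligne, Satake) the
irreducible constituents of `H_1(A, ℂ)` are then tensor products `V_S ⊗ χ` of the standard representations of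
the factors `i ∈ S` and of a character of the centre. In `TypeA1` the factors are given by
homomorphisms `φ i` (without unit element) from the algebra of the matrices of size two to the
endomorphisms of `H_1(A, ℂ)`, such that `𝔤 ⊗ ℂ` is the sum of its centre and of the `φ i (sl(2))`. Let
`i ≠ k` be two factors. We assume that one of the following is true:

* (`CompactAt`) for some automorphism `σ` of `ℂ` one of the conjugates `σ(i)` and `σ(k)` is a compact
  factor (it commutes with the complex structure of `H_1(A, ℝ)`), and the other one is not compact;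
* (`InSeparatedPosition`) there is a constituent on which `i` and `k` both act nontrivially, or there are
  constituents `V ⊗ U` and `V' ⊗ U`, where `V` and `V'` are the standard representations of `i` and `k`, and
  `U` is a representation of the other factors and of the centre.

**Every abelian variety `A` over `ℚ̄` whose Hodge group is of type `A_1` is a factor of an abelian variety
over `ℚ̄` with this property.** Suppose that the first condition is false for `i` and `k`, and that `k` acts
trivially on a constituent `V ⊗ U`, where `V` is the standard representation of `i`. Then for all `σ` the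
conjugate by `σ` of `V' ⊗ U` has the same Hodge types as that of `V ⊗ U`, that is `(-1, 0)` and `(0, -1)`, as
`σ(i)` and `σ(k)` are both compact or both noncompact. So there is an abelian variety `A'` whose constituents
are these representations, and it is defined over `ℚ̄`, as it has the same adjoint Hodge group as `A` (the
maps between the Shimura varieties are defined over `ℚ̄`). The factors `i` and `k` are in separated position
for `A × A'`, whose Hodge group has the same adjoint group; and its centre is zero if the centre of the Hodge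
group of `A` is finite. The motives in the tensor category generated by `h^1(A)` are among those in the tensor
category generated by `h^1(A × A')`.

Examples of abelian varieties whose Hodge group is of type `A_1`: all products of elliptic curves; the
abelian surfaces with real or quaternionic multiplication; the simple abelian varieties of the types I and II
of Albert whose commutant of `End(A)` has dimension four over its centre; the abelian varieties of Mumford
(`H_1(A, ℂ) = ℂ² ⊗ ℂ² ⊗ ℂ²`, `End(A) = ℤ`, with Hodge classes on `A ^ 2` which are not combinations of products of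
classes of divisors) and their generalizations; the Kuga-Satake varieties of Hodge structures of K3 type of
rank three and four over the field of their endomorphisms, if it is totally real; the simple abelian
fourfolds of type IV(2,1), where `End(A) ⊗ ℚ` is a CM field of degree four; in general,
the abelian varieties which belong to the quaternionic Shimura varieties of all totally real fields `F₀`,
for instance to the Shimura curves, for all symplectic embeddings (the *modèles étranges* of Deligne), where some
factors are compact; and all products of such abelian varieties and abelian varieties with complex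
multiplication.

## The centre

The condition `ControlledCentre`: `A` is a factor of an abelian variety `C` such that the centre of the Lie
algebra of the Hodge group of `C` is rigid, and all elements of the centre of `𝔤` are restrictions of
elements of it. *Rigid* means: for every element `X` of the centre which generates it relative to the derived
algebra (`Generates`), all relations `∑ x i = 0` between eigenvalues of `X` for eigenvectors `v i` imply the
relations `∑ y i = 0` for the eigenvalues of all elements `Y` of the centre, for the same eigenvectors.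
If `A` has no factor of type IV then the centre is zero, and the condition is true with `C = A`.

**The condition is true for all `A` such that the centres of the endomorphism algebras of the simple factors
of type IV are abelian over `ℚ`.** Let `L` be a CM field which contains these centres and is Galois over `ℚ`
with an abelian group `Γ`, and let `C` be the product of `A` and of the abelian varieties `A_Φ` with complex
multiplication by `L` and of the type `Φ`, for all CM types `Φ ⊆ Γ`. The centre of the Lie algebra of the
Hodge group of `C` consists of the elements `x ∈ L` with `x̄ = - x`: it is the odd part of the Lie algebra of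
the Serre torus of `L`, as this torus is generated by the conjugates of its cocharacter, and is mapped onto
the centre for `A`. The eigenvalues of `x` on `H_1(A_Φ, ℂ)` are the conjugates of `∑_{t ∈ Φ} t⁻¹(x)`, and all
the eigenvalues on `H_1(C, ℂ)` are of the form `∑_t c_t t⁻¹(x)` with odd rational functions `c` on `Γ`. A
nonzero odd function `f` with the values `0`, `1`, `-1` is the difference of two CM types `Φ`, `Φ'`, and so
`∑_t f_t t⁻¹(x) ≠ 0` if `x` is generating: otherwise a homomorphism between the homologies of `A_Φ` and `A_Φ'`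
commutes with `x`, and not with the centre. The odd functions `c` with `∑_t c_t t⁻¹(x) = 0` are an ideal of
`ℚ[Γ]`. If there is a function `c ≠ 0` in it, let `χ` be a character of `Γ` with `∑_t c_t χ(t) ≠ 0`, let `N` be the
kernel of `χ`, and `τ_q ∈ Γ` an element whose image in the cyclic group `Γ / N` is of order `q`, for all prime
numbers `q` which divide the order of this group. The element `f = ∏_q (1 - τ_q) ∑_{n ∈ N} n` has the
coefficients `0`, `1`, `-1`, and it is in the ideal, because `ψ(f) ≠ 0` for the conjugates `ψ` of `χ` only.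
This is a contradiction, so the only relations between the eigenvalues of `x` are those which hold for
all elements of the centre. (This is the argument of the starting file `MP_470b79_ag.AbelianCMTensors` on
complex multiplication by abelian fields.)

Let `A` be a simple abelian fourfold such that `End(A) ⊗ ℚ` is a CM field `F` of degree four. Then `A` is of
type `A_1` with one compact and one noncompact factor (Shimura), and the centre consists of the elements
`x ∈ F` with `x̄ = - x`. If `F` is not abelian over `ℚ` then it has no imaginary quadratic subfield, and so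
different conjugates `a`, `b ≠ - a` of such an element `x ≠ 0` are linearly independent over `ℚ`, and the
centre is rigid. So `ControlledCentre` holds for all simple abelian fourfolds with `End(A) ⊗ ℚ` a quartic CM
field.

## Motives

As `h^1(A)` is dual to `h^1(A)(1)`, the motive `M` is a direct factor of a sum of motives
`h^1(A) ^ {⊗ r i} (w i)`. Its Betti realization is a space of families of multilinear forms with
rational values, in `r i` variables in `H_1(A, ℚ)`, with a basis `B`. It is the image of a motivated
projector, and the realizations of motivated classes are Hodge classes and de Rham-Betti classes; so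
it is stable under the Lie algebra `𝔤` of the endomorphisms of `H_1(A, ℚ)` which annihilate all
classes that are Hodge classes and de Rham-Betti classes (`InLie`), and under the weights. The de Rham
realization has a basis which consists of combinations of products of elements of `H^1_dR(A / ℚ̄)`
with algebraic coefficients. The matrix `P` of the periods expresses it in terms of the basis
`(2 π i) ^ (w i) B` of the Betti realization (`IsMotive`). By the theorem of Deligne `𝔤` is the Lie
algebra of the Hodge group of `A`, and its image in the endomorphisms of `M` is the Lie algebra of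
the Hodge group of `M`.

## Proof

The part on algebraic groups with a torsor containing `P` (`main`) is my theorem
`MP_f11a48_ag.TypeA1Motives`, with the same proof; see there. A point of the torsors with algebraic
coordinates is found with the Nullstellensatz: there is a matrix `F` with algebraic entries which satisfies
all polynomial equations over `ℚ̄` which are satisfied by `P` (`exists_point`). Then `P F⁻¹` is in all groups
`G` over `ℚ` with a torsor over `ℚ̄` containing `P` (`point_mem`), so `dRBGroup P` has such a torsor. The
stabilizers of a de Rham-Betti homomorphism and of a de Rham-Betti subobject are algebraic groups over `ℚ`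
which contain `P F⁻¹` (`stabHom_mem`, `stabSub_mem`), so they contain `dRBGroup P`.
-/

open Module Matrix Pool.Agent.Y102 Pool.Agent.W516.DR Pool.Agent.H204R3.GP
open Pool.Agent.Run7.h358.U2 (stabHom stabSub stabHom_alg stabSub_alg stabHom_mem stabSub_mem)

noncomputable section

namespace Pool.Agent.Results.MP_470b79_ag.TypeA1Fullness

variable {g : ℕ} (A : AbVar g)

/-! ### The centre of the Lie algebra of the Hodge group -/

/-- The multilinear forms in `2m` variables in the rational homology. -/
abbrev Form (m : ℕ) : Type := MultilinearMap ℚ (fun _ : Fin m × Fin 2 => A.H1) ℚ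

/-- `φ` is a de Rham-Betti class in `H^1(A) ^ {⊗ 2m} (m)`. -/
def IsDRB {m : ℕ} (φ : Form A m) : Prop :=
  IsDeRhamBettiForm QBar A.dR (2 * Real.pi * Complex.I) m φ

/-- `φ` is a Hodge class in `H^1(A) ^ {⊗ 2m} (m)`. -/
def IsHodge {m : ℕ} (φ : Form A m) : Prop := IsHodgeTensor (A.per : A.H1 →+ (Fin g → ℂ)) φ

/-- The endomorphism `X` annihilates the form `φ` (as a derivation). -/
def Annihilates {m : ℕ} (X : Module.End ℚ A.H1) (φ : Form A m) : Prop :=
  ∀ v, ∑ k, φ (Function.update v k (X (v k))) = 0

/-- `X` is in the Lie algebra `𝔤`: it annihilates all classes that are Hodge classes and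
de Rham-Betti classes. -/
def InLie (X : Module.End ℚ A.H1) : Prop :=
  ∀ (m : ℕ) (φ : Form A m), IsHodge A φ → IsDRB A φ → Annihilates A X φ

/-- `X` is an element of the centre of `𝔤`. -/
def InCentre (X : Module.End ℚ A.H1) : Prop := InLie A X ∧ ∀ Y, InLie A Y → Y * X = X * Y

/-- The algebra of the endomorphisms of `H_1(A, ℂ)`, as matrices for the basis of the lattice. -/
def toC (X : Module.End ℚ A.H1) : Matrix (Fin (2 * g)) (Fin (2 * g)) ℂ :=
  Matrix.of fun i j => (X (Pi.single j 1) i : ℂ)

/-- The endomorphisms which commute with `X` and with the derived algebra of `𝔤` commute with the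
centre of `𝔤`. -/
def Generates (X : Module.End ℚ A.H1) : Prop :=
  ∀ T : Module.End ℚ A.H1,
    (∀ Y, InLie A Y → ∀ Z, InLie A Z → T * (Y * Z - Z * Y) = (Y * Z - Z * Y) * T) →
    T * X = X * T → ∀ Z, InCentre A Z → T * Z = Z * T

/-- All relations `∑ i, x i = 0` between eigenvalues of `X` imply the relation `∑ i, y i = 0` between
the eigenvalues of `Y` for the same eigenvectors. -/
def RelationsOf (X Y : Module.End ℚ A.H1) : Prop :=
  ∀ (r : ℕ) (v : Fin r → Fin (2 * g) → ℂ) (x y : Fin r → ℂ),
    (∀ i, v i ≠ 0 ∧ Matrix.mulVec (toC A X) (v i) = x i • v i ∧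
      Matrix.mulVec (toC A Y) (v i) = y i • v i) → ∑ i, x i = 0 → ∑ i, y i = 0

/-- The centre of `𝔤` is rigid: the relations between the eigenvalues of a generating element of the
centre hold for all elements of the centre. -/
def RigidCentre : Prop :=
  ∀ X, InCentre A X → Generates A X → ∀ Y, InCentre A Y → RelationsOf A X Y

/-! ### Type `A_1` -/

/-- The complex Lie algebra `𝔤 ⊗ ℂ`, acting on `H_1(A, ℂ)`. -/
def lieC : Submodule ℂ (Matrix (Fin (2 * g)) (Fin (2 * g)) ℂ) :=
  Submodule.span ℂ {Y | ∃ X, InLie A X ∧ Y = toC A X}

/-- `z` commutes with `𝔤 ⊗ ℂ`. -/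
def CommutesWithLie (z : Matrix (Fin (2 * g)) (Fin (2 * g)) ℂ) : Prop := ∀ Y ∈ lieC A, z * Y = Y * z

/-- The complex structure: the matrix of the multiplication by `i` on `H_1(A, ℝ) = ℂ ^ g`, in the basis
of the lattice. -/
def complexStructure : Matrix (Fin (2 * g)) (Fin (2 * g)) ℂ :=
  Matrix.of fun i j => ((A.lam.repr (Complex.I • A.lam j) i : ℝ) : ℂ)

/-- The conjugate by the automorphism `σ` of `ℂ` of the factor `ψ` is compact: it commutes with the
complex structure. -/
def CompactAt (σ : ℂ ≃+* ℂ)
    (ψ : Matrix (Fin 2) (Fin 2) ℂ →ₗ[ℂ] Matrix (Fin (2 * g)) (Fin (2 * g)) ℂ) : Prop :=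
  ∀ a, complexStructure A * (ψ a).map σ = (ψ a).map σ * complexStructure A

/-- The factors `i` and `k` act nontrivially on a common constituent of `H_1(A, ℂ)`, or there are
constituents `V ⊗ U` and `V' ⊗ U`, where `V` and `V'` are the standard representations of the factors `i`
and `k`, and `U` is a representation of the other factors and of the centre. -/
def InSeparatedPosition {n : ℕ}
    (φ : Fin n → Matrix (Fin 2) (Fin 2) ℂ →ₗ[ℂ] Matrix (Fin (2 * g)) (Fin (2 * g)) ℂ)
    (i k : Fin n) : Prop :=
  φ i 1 * φ k 1 ≠ 0 ∨ ∃ N : Matrix (Fin (2 * g)) (Fin (2 * g)) ℂ,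
    N ≠ 0 ∧ φ i 1 * N = N ∧ N * φ k 1 = N ∧
      (∀ l, l ≠ i → l ≠ k → ∀ a, N * φ l a = φ l a * N) ∧
      ∀ z ∈ lieC A, CommutesWithLie A z → N * z = z * N

/-- **Type `A_1`.** The Lie algebra `𝔤 ⊗ ℂ` is the sum of its centre and of `n` Lie algebras `sl(2)`,
which act by tensor products of standard representations. For two factors some automorphism of `ℂ` maps one
of them to a compact factor and the other one to a noncompact factor, or they are in separated
position. -/
def TypeA1 : Prop :=
  ∃ (n : ℕ) (φ : Fin n → Matrix (Fin 2) (Fin 2) ℂ →ₗ[ℂ] Matrix (Fin (2 * g)) (Fin (2 * g)) ℂ),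
    (∀ i a b, φ i (a * b) = φ i a * φ i b) ∧
    (∀ i k, i ≠ k → ∀ a b, φ i a * φ k b = φ k b * φ i a) ∧
    (∀ i, φ i 1 ≠ 0) ∧
    (∀ i x, x.trace = 0 → φ i x ∈ lieC A) ∧
    (∀ X ∈ lieC A, ∃ x : Fin n → Matrix (Fin 2) (Fin 2) ℂ, (∀ i, (x i).trace = 0) ∧
      CommutesWithLie A (X - ∑ i, φ i (x i))) ∧
    ∀ i k, i ≠ k → InSeparatedPosition A φ i k ∨
      ∃ σ : ℂ ≃+* ℂ, ¬ (CompactAt A σ (φ i) ↔ CompactAt A σ (φ k))

/-- `f` is a homomorphism (up to isogeny) from `A` to `C`: it is given by a linear map of the tangent
spaces, and the pull backs of the algebraic differential forms are algebraic. -/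
def IsHomomorphism {g' : ℕ} (C : AbVar g') (f : A.H1 →ₗ[ℚ] C.H1) : Prop :=
  (∃ F : (Fin g → ℂ) →ₗ[ℂ] (Fin g' → ℂ), ∀ w, F (A.per w) = C.per (f w)) ∧
    ∃ e : Fin g' ⊕ Fin g' → Fin g ⊕ Fin g → QBar,
      ∀ i w, C.dR i (f w) = ∑ j, algebraMap QBar ℂ (e i j) * A.dR j w

/-- `A` is a direct factor of `C`, up to isogeny, with the inclusion `f` and the projection `p`. -/
structure IsFactor {g' : ℕ} (C : AbVar g') (f : A.H1 →ₗ[ℚ] C.H1) (p : C.H1 →ₗ[ℚ] A.H1) :
    Prop where
  inclusion : IsHomomorphism A C f
  projection : IsHomomorphism C A p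
  split : ∀ w, p (f w) = w

/-- `A` is a factor of an abelian variety `C` such that the centre of the Lie algebra of the Hodge
group of `C` is rigid and acts on `A` through all elements of the centre of `𝔤`. -/
def ControlledCentre : Prop :=
  ∃ (g' : ℕ) (C : AbVar g') (f : A.H1 →ₗ[ℚ] C.H1) (p : C.H1 →ₗ[ℚ] A.H1),
    IsFactor A C f p ∧ RigidCentre C ∧
    ∀ Y, InCentre A Y → ∃ X, InCentre C X ∧ ∀ v, p (X (f v)) = Y v

/-! ### Motives -/

variable {s n : ℕ} (r : Fin s → ℕ) (w : Fin s → ℤ)

/-- The Betti realization of the sum of the motives `h^1(A) ^ {⊗ r i} (w i)`: families of multilinear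
forms in `r i` variables in the rational homology. -/
abbrev Tensors : Type := ∀ i : Fin s, MultilinearMap ℚ (fun _ : Fin (r i) => A.H1) ℚ

variable {A r}

/-- `M` is the matrix of the action of the endomorphism `X` of the rational homology of `A` (as a
derivation) on the space of tensors with the basis `B`. -/
def IsLieMatrix (B : Fin n → Tensors A r) (X : Module.End ℚ A.H1)
    (M : Matrix (Fin n) (Fin n) ℚ) : Prop :=
  ∀ a i v, ∑ k, B a i (Function.update v k (X (v k))) = ∑ b, M b a * B b i v

/-- The subspace with the basis `B` is the Betti realization of a direct factor `M` of the sum of the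
motives `h^1(A) ^ {⊗ r i} (w i)`, and `P` is the matrix of the periods of `M` for the basis `B` and for
some basis of the de Rham realization of `M` over `ℚ̄`. -/
structure IsMotive (B : Fin n → Tensors A r) (P : Matrix (Fin n) (Fin n) ℂ) : Prop where
  /-- `B` is a basis of a subspace -/
  basis : LinearIndependent ℚ B
  /-- the subspace is stable under `𝔤` -/
  lie : ∀ X, InLie A X → ∃ M : Matrix (Fin n) (Fin n) ℚ, IsLieMatrix B X M
  /-- the subspace is stable under the weights -/
  weight : ∃ M : Matrix (Fin n) (Fin n) ℚ, ∀ a i v,
    ((r i : ℚ) - 2 * w i) * B a i v = ∑ b, M b a * B b i v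
  /-- the de Rham realization has a basis of elements with algebraic coefficients in terms of the
  tensor products of the elements of the basis of `H^1_dR(A / ℚ̄)` -/
  deRham : ∃ c : Fin n → ∀ i : Fin s, (Fin (r i) → Fin g ⊕ Fin g) → ℂ,
    (∀ a i J, IsAlgebraic ℚ (c a i J)) ∧ ∀ a i (v : Fin (r i) → A.H1),
      ∑ J, c a i J * ∏ k, A.dR (J k) (v k) =
        (2 * Real.pi * Complex.I) ^ (w i) * ∑ b, P b a * (B b i v : ℂ)
  /-- the matrix of the periods is invertible -/
  det : P.det ≠ 0

variable (A) in
/-- The derived algebra `[𝔤, 𝔤]`. -/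
def derivedLie : Submodule ℚ (Module.End ℚ A.H1) :=
  Submodule.span ℚ {Z | ∃ X, InLie A X ∧ ∃ Y, InLie A Y ∧ Z = X * Y - Y * X}

/-! ### Algebraic groups, torsors and the Mumford-Tate group -/

/-- A subgroup of `GL_R(ℂ)` defined by polynomials with rational coefficients. -/
def IsAlgebraicSubgroup {R : Type} [Fintype R] [DecidableEq R] (G : Subgroup (GL R ℂ)) : Prop :=
  ∃ I : Set (MvPolynomial (R × R) ℚ), ∀ x : GL R ℂ, x ∈ G ↔
    ∀ p ∈ I, MvPolynomial.aeval (fun b : R × R => (x : Matrix R R ℂ) b.1 b.2) p = 0

/-- The torsor `G · T⁻¹` of `G`: the matrices `F` such that `F T` is an element of `G`. It is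
defined over `ℚ̄` if `T` is a matrix with algebraic entries. -/
def torsor (G : Subgroup (GL (Fin n) ℂ)) (T : Matrix (Fin n) (Fin n) ℂ) :
    Set (Matrix (Fin n) (Fin n) ℂ) :=
  {F | ∃ x ∈ G, (x : Matrix (Fin n) (Fin n) ℂ) = F * T}

variable (A) in
/-- The Hodge structure of `H^1(A)`: the complex number `z` acts on `H_1(A, ℝ) = ℂ ^ g` by
multiplication, and on `H^1(A, ℝ)` by the transposed map, here in the basis of `H^1(A, ℚ)` which is
dual to the basis of the lattice. -/
def hodge (z : ℂ) : Matrix (Fin (2 * g)) (Fin (2 * g)) ℂ :=
  Matrix.of fun i j => ((A.lam.repr (z • A.lam i) j : ℝ) : ℂ)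

/-- `R` is the matrix of the action of the complex number `z` on `M`, in the Hodge structure given by
those of `H^1(A)` and of the Tate motives (`z` acts on `ℚ(1)` by `(z z̄)⁻¹`). -/
def IsHodgeMatrix (B : Fin n → Tensors A r) (z : ℂ) (R : Matrix (Fin n) (Fin n) ℂ) : Prop :=
  ∀ a i (j : Fin (r i) → Fin (2 * g)),
    ∑ j' : Fin (r i) → Fin (2 * g), (∏ k, hodge A z (j k) (j' k)) *
        (B a i (fun k => Pi.single (j' k) 1) : ℂ) =
      (z * (starRingEnd ℂ) z) ^ (w i) * ∑ b, R b a * (B b i (fun k => Pi.single (j k) 1) : ℂ)

/-- The Mumford-Tate group of `M`: the smallest algebraic group over `ℚ` which contains the image of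
the Deligne torus. -/
def mumfordTate (B : Fin n → Tensors A r) : Subgroup (GL (Fin n) ℂ) :=
  sInf {G | IsAlgebraicSubgroup G ∧ ∀ z : ℂ, z ≠ 0 → ∃ x ∈ G,
    IsHodgeMatrix w B z (x : Matrix (Fin n) (Fin n) ℂ)}

/-! ### de Rham-Betti objects -/

/-- The de Rham-Betti group of `M`: the smallest algebraic group over `ℚ` with a torsor over `ℚ̄` which
contains the matrix `P` of the periods. -/
def dRBGroup (P : Matrix (Fin n) (Fin n) ℂ) : Subgroup (GL (Fin n) ℂ) :=
  sInf {G | IsAlgebraicSubgroup G ∧ ∃ T : Matrix (Fin n) (Fin n) ℂ,
    (∀ i j, IsAlgebraic ℚ (T i j)) ∧ P ∈ torsor G T}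

/-- The action of the matrix `x` on the `a`-th tensor power, with the basis of the pure tensors of the
basis. -/
def tensorPower (a : ℕ) (x : Matrix (Fin n) (Fin n) ℂ) :
    Matrix (Fin a → Fin n) (Fin a → Fin n) ℂ :=
  Matrix.of fun J K => ∏ k, x (J k) (K k)

/-- The complex matrix of a rational matrix. -/
def toComplex {I J : Type} (t : Matrix I J ℚ) : Matrix I J ℂ := Matrix.of fun i j => (t i j : ℂ)

/-- The rational linear map `M_B ^ {⊗ b} → M_B ^ {⊗ a}` with the matrix `t` is a homomorphism of de
Rham-Betti objects: together with a linear map `M_dR ^ {⊗ b} → M_dR ^ {⊗ a}`, with an algebraic matrix `u`,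
it is compatible with the comparison isomorphisms. -/
def IsDRBHom (P : Matrix (Fin n) (Fin n) ℂ) {a b : ℕ}
    (t : Matrix (Fin a → Fin n) (Fin b → Fin n) ℚ) : Prop :=
  ∃ u : Matrix (Fin a → Fin n) (Fin b → Fin n) ℂ, (∀ i j, IsAlgebraic ℚ (u i j)) ∧
    tensorPower a P * u = toComplex t * tensorPower b P

/-- The linearly independent columns of the matrix `t` are a basis of a subspace of `M_B ^ {⊗ a}`
which is the Betti realization of a de Rham-Betti subobject of `M ^ {⊗ a}`: the comparison isomorphism maps
a subspace of `M_dR ^ {⊗ a}` with the algebraic basis `u` to it. -/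
def IsDRBSub (P : Matrix (Fin n) (Fin n) ℂ) {a m : ℕ} (t : Matrix (Fin a → Fin n) (Fin m) ℚ) : Prop :=
  LinearIndependent ℚ (fun j i => t i j) ∧
    ∃ (u : Matrix (Fin a → Fin n) (Fin m) ℂ) (c : Matrix (Fin m) (Fin m) ℂ),
      (∀ i j, IsAlgebraic ℚ (u i j)) ∧ c.det ≠ 0 ∧ tensorPower a P * u = toComplex t * c

variable (A) in
/-- The part of the Mumford-Tate group of `M` in the theorem: `x` is `exp (c N)` for the matrix `N` of the
action on `M` of an element of the derived algebra of the Lie algebra of the Hodge group, or
the condition `ControlledCentre` is satisfied and `x` is any element of the Mumford-Tate group of `M`. -/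
def InPart (B : Fin n → Tensors A r) (x : GL (Fin n) ℂ) : Prop :=
  (∃ X ∈ derivedLie A, ∃ N, IsLieMatrix B X N ∧ ∃ c : ℂ,
    (x : Matrix (Fin n) (Fin n) ℂ) = NormedSpace.exp (c • N.map fun q => (q : ℂ))) ∨
  (ControlledCentre A ∧ x ∈ mumfordTate w B)

/-! ### The proof -/

theorem RigidCentre.toRigid {g' : ℕ} {C : AbVar g'} (hz : RigidCentre C) : N208.CT.Rigid C := by
  intro X hX hg Y hY
  refine dom_of_matrix (hz X ⟨hX.1, hX.2⟩ (fun T hT hTX Z hZ => ?_) Y ⟨hY.1, hY.2⟩)
  exact hg T hT hTX Z ⟨hZ.1, hZ.2⟩

theorem complexStructure_eq (A : AbVar g) :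
    complexStructure A = Run7.h358.A1.cR (Run7.h358.A1.JM A) := by
  ext i j
  change ((A.lam.repr (Complex.I • A.lam j) i : ℝ) : ℂ) =
    algebraMap ℝ ℂ (LinearMap.toMatrix A.lam A.lam AbVar.JJ i j)
  rw [LinearMap.toMatrix_apply]
  rfl

theorem TypeA1.toWeak (h : TypeA1 A) : ∃ (n : ℕ)
    (φ : Fin n → Matrix (Fin 2) (Fin 2) ℂ →ₗ[ℂ] Matrix (Fin (2 * g)) (Fin (2 * g)) ℂ),
    Run7.h358.A1.WeakA1 A φ := by
  obtain ⟨n, φ, h1, h2, h3, h4, h5, h6⟩ := h
  refine ⟨n, φ, ⟨h1, h2, h3, h4, h5⟩, fun i k hik => ?_⟩
  rcases h6 i k hik with h7 | ⟨σ, h7⟩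
  · exact Or.inl h7
  · right
    refine ⟨σ, ?_⟩
    unfold CompactAt at h7
    rw [complexStructure_eq] at h7
    exact h7

/-- The theorem on one group `G` (`MP_f11a48_ag.TypeA1Motives`). -/
theorem main {g s n : ℕ} (A : AbVar g) (hA : TypeA1 A) (r : Fin s → ℕ) (w : Fin s → ℤ)
    (B : Fin n → Tensors A r) (P : Matrix (Fin n) (Fin n) ℂ) (hM : IsMotive w B P)
    (G : Subgroup (GL (Fin n) ℂ)) (hG : IsAlgebraicSubgroup G) (T : Matrix (Fin n) (Fin n) ℂ)
    (hT : ∀ i j, IsAlgebraic ℚ (T i j)) (hP : P ∈ torsor G T) :
    (∀ X ∈ derivedLie A, ∀ N, IsLieMatrix B X N → ∀ t : ℂ, ∃ x ∈ G,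
      (x : Matrix (Fin n) (Fin n) ℂ) = NormedSpace.exp (t • N.map fun q => (q : ℂ))) ∧
    (ControlledCentre A → mumfordTate w B ≤ G) := by
  have hwr : ∀ W : Matrix (Fin n) (Fin n) ℚ, (∀ a i v,
      ((r i : ℚ) - 2 * w i) * B a i v = ∑ b, W b a * B b i v) → N208.AM.WRel w B W := by
    intro W h a i
    refine MultilinearMap.ext fun v => ?_
    rw [_root_.smul_apply, _root_.sum_apply, smul_eq_mul, h a i v]
    rfl
  obtain ⟨hM', Wt, hW⟩ : N208.AM.Mot w B P ∧ ∃ Wt, N208.AM.WRel w B Wt := by
    have hwt : ∃ M, N208.AM.WRel w B M := by
      obtain ⟨M, h⟩ := hM.weight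
      exact ⟨M, hwr M h⟩
    refine ⟨⟨hM.basis, fun X hX => ?_, hwt, hM.det, hM.deRham⟩, hwt⟩
    obtain ⟨M, h⟩ := hM.lie X hX
    refine ⟨M, fun a i => MultilinearMap.ext fun v => ?_⟩
    rw [N208.AM.dact_apply, _root_.sum_apply, h a i v]
    rfl
  have hrelL : ∀ X M, IsLieMatrix B X M → N208.AM.Rel B X M := by
    intro X M h a i
    refine MultilinearMap.ext fun v => ?_
    rw [N208.AM.dact_apply, _root_.sum_apply, h a i v]
    rfl
  have hb : ∀ j : Fin (2 * g), A.bas j = Pi.single j 1 := fun j => by
    unfold AbVar.bas
    rw [Pi.basisFun_apply]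
  have hrel : ∀ z R, N208.AM.HRel w B z R → IsHodgeMatrix w B z R := by
    intro z R h a i j
    have h1 := h a i j
    simp only [hb] at h1
    exact h1
  -- the group
  have hdet : T.det ≠ 0 := by
    obtain ⟨x, -, hxT⟩ := hP
    intro h0
    have h1 : (x : Matrix (Fin n) (Fin n) ℂ).det = 0 := by
      rw [hxT, Matrix.det_mul, h0, mul_zero]
    exact (Matrix.GeneralLinearGroup.det x).ne_zero h1
  obtain ⟨T', h1, h2⟩ := Pool.Agent.R917.alg_inv hT hdet
  obtain ⟨x, hx, hxT⟩ := hP
  have hH : N208.AM.PtM P _ := ⟨Pool.Agent.R917.algGrp_of hG, T, T', h1, h2, x, hx, hxT⟩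
  obtain ⟨k, φ, hφ⟩ := hA.toWeak
  have hL := hφ.derFull
  refine ⟨fun X hX N hN t => ?_, fun hz => ?_⟩
  · have hX' : X ∈ der A.NA := by
      refine (Submodule.span_mono ?_) hX
      rintro _ ⟨X, hX, Y, hY, rfl⟩
      exact ⟨X, hX, Y, hY, rfl⟩
    exact Pool.Agent.R917.exp_mem hH.grp fun d =>
      (hL.der_LQ hM' hW hH hX' (hrelL X N hN) d).smul t
  · -- the centre
    have hcen : ∀ Y ∈ A.CN, ∀ M : Matrix (Fin n) (Fin n) ℚ, N208.AM.Rel B Y M →
        M ∈ N208.AM.LQ {M : Matrix (Fin n) (Fin n) ℂ | ∃ x ∈ G,
          (x : Matrix (Fin n) (Fin n) ℂ) = M} := by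
      intro Y hY M hM
      obtain ⟨g', C, f, p, hf, hr, hc⟩ := hz
      obtain ⟨X, hX, hXY⟩ := hc Y ⟨hY.1, hY.2⟩
      exact Run7.h358.U2.cen_fac (f := f) (p := p)
        ⟨hf.inclusion.2, hf.projection.2, hf.projection.1, hf.split⟩ hM' hW hH hr.toRigid
        ⟨X, ⟨hX.1, hX.2⟩, hXY⟩ hM
    -- the complex structure
    obtain ⟨N, hN, -⟩ := N208.AM.exists_J hM'
    refine sInf_le ⟨hG, fun u hu => ?_⟩
    obtain ⟨⟨y, hy, hy'⟩, h4⟩ := hL.main hM' hW hH hcen hN hu
    refine ⟨y, hy, ?_⟩
    rw [hy']
    exact hrel _ _ h4

theorem toComplex_eq {I J : Type} (t : Matrix I J ℚ) :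
    toComplex t = Run7.h358.U2.cQ t := by
  ext i j
  exact (eq_ratCast (algebraMap ℚ ℂ) (t i j)).symm

/-- The group `dRBGroup P` is an algebraic group, with a torsor over `ℚ̄` which contains `P`; it
commutes with de Rham-Betti homomorphisms and it stabilizes de Rham-Betti subobjects. -/
theorem dRB_main {P : Matrix (Fin n) (Fin n) ℂ} (hP : P.det ≠ 0) :
    (IsAlgebraicSubgroup (dRBGroup P) ∧ ∃ T : Matrix (Fin n) (Fin n) ℂ,
      (∀ i j, IsAlgebraic ℚ (T i j)) ∧ P ∈ torsor (dRBGroup P) T) ∧
    (∀ x ∈ dRBGroup P, ∀ (a b : ℕ) (t : Matrix (Fin a → Fin n) (Fin b → Fin n) ℚ), IsDRBHom P t →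
      tensorPower a (x : Matrix (Fin n) (Fin n) ℂ) * toComplex t =
        toComplex t * tensorPower b (x : Matrix (Fin n) (Fin n) ℂ)) ∧
    (∀ x ∈ dRBGroup P, ∀ (a m : ℕ) (t : Matrix (Fin a → Fin n) (Fin m) ℚ), IsDRBSub P t →
      ∃ y : Matrix (Fin m) (Fin m) ℂ, tensorPower a (x : Matrix (Fin n) (Fin n) ℂ) * toComplex t = toComplex t * y) := by
  obtain ⟨F, T, x₀, hF, hFT, hT', hx₀, key⟩ := Run7.h358.A1.exists_base hP
  have hT : ∀ i j, IsAlgebraic ℚ (T i j) := fun i j => mem_algebraicClosure_iff.1 (hT' i j)
  have hmem : ∀ G : Subgroup (GL (Fin n) ℂ), IsAlgebraicSubgroup G → x₀ ∈ G → dRBGroup P ≤ G :=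
    fun G hG hx => sInf_le ⟨hG, T, hT, x₀, hx, hx₀⟩
  refine ⟨⟨⟨{p | ∀ x ∈ dRBGroup P, MvPolynomial.aeval (fun b : Fin n × Fin n =>
    (x : Matrix (Fin n) (Fin n) ℂ) b.1 b.2) p = 0}, fun x => ⟨fun hx p hp => hp x hx, fun hx => ?_⟩⟩,
    T, hT, x₀, ?_, hx₀⟩, fun x hx a b t ht => ?_, fun x hx a m t ht => ?_⟩
  · refine Subgroup.mem_sInf.2 ?_
    rintro G ⟨⟨I, hI⟩, hG⟩
    rw [hI]
    intro p hp
    refine hx p fun y hy => ?_
    have h1 : y ∈ G := Subgroup.mem_sInf.1 hy G ⟨⟨I, hI⟩, hG⟩
    exact (hI y).1 h1 p hp
  · exact Subgroup.mem_sInf.2 fun G hG => key G hG.1 hG.2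
  · obtain ⟨u, hu, h⟩ := ht
    rw [toComplex_eq] at h ⊢
    exact hmem (stabHom t) (stabHom_alg t) (stabHom_mem hF hFT hx₀ hu h) hx
  · obtain ⟨hli, u, c, hu, hc, h⟩ := ht
    rw [toComplex_eq] at h ⊢
    have hv := Run7.h358.A1.left_inv hli
    have hcc : c * c⁻¹ = 1 := Matrix.mul_nonsing_inv c (isUnit_iff_ne_zero.2 hc)
    exact hmem (stabSub t hv) (stabSub_alg t hv) (stabSub_mem hF hFT hx₀ hv hu hcc h) hx

/-- **Theorem.** Let `A` be an abelian variety over `ℚ̄` whose Hodge group is of type `A_1`. Let `M` be a
motive in the tensor category generated by the motive `h^1(A)` and the Tate motives, with the matrix `P` of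
periods. Then the smallest algebraic group `dRBGroup P` over `ℚ` which has a torsor over `ℚ̄` containing
`P` exists, and it contains `exp (c N)` for the action `N` on `M` of elements of the derived algebra of the
Lie algebra of the Hodge group, and the Mumford-Tate group of `M` if the condition `ControlledCentre` is satisfied.
The same elements commute with all homomorphisms of de Rham-Betti objects between the tensor powers of
`M`, and stabilize all de Rham-Betti subobjects of the tensor powers of `M`. -/
theorem result {g s n : ℕ} (A : AbVar g) (hA : TypeA1 A) (r : Fin s → ℕ) (w : Fin s → ℤ)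
    (B : Fin n → Tensors A r) (P : Matrix (Fin n) (Fin n) ℂ) (hM : IsMotive w B P) :
    (IsAlgebraicSubgroup (dRBGroup P) ∧ ∃ T : Matrix (Fin n) (Fin n) ℂ,
      (∀ i j, IsAlgebraic ℚ (T i j)) ∧ P ∈ torsor (dRBGroup P) T) ∧
    ∀ x : GL (Fin n) ℂ, InPart A w B x →
      x ∈ dRBGroup P ∧
      (∀ (a b : ℕ) (t : Matrix (Fin a → Fin n) (Fin b → Fin n) ℚ), IsDRBHom P t →
        tensorPower a (x : Matrix (Fin n) (Fin n) ℂ) * toComplex t =
          toComplex t * tensorPower b (x : Matrix (Fin n) (Fin n) ℂ)) ∧
      (∀ (a m : ℕ) (t : Matrix (Fin a → Fin n) (Fin m) ℚ), IsDRBSub P t →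
        ∃ y : Matrix (Fin m) (Fin m) ℂ,
          tensorPower a (x : Matrix (Fin n) (Fin n) ℂ) * toComplex t = toComplex t * y) := by
  obtain ⟨⟨h1, T, hT, hPT⟩, h2, h3⟩ := dRB_main hM.det
  have h4 := main A hA r w B P hM (dRBGroup P) h1 T hT hPT
  have h5 : ∀ x : GL (Fin n) ℂ, InPart A w B x → x ∈ dRBGroup P := by
    rintro x (⟨X, hX, N, hN, c, hx⟩ | ⟨hz, hx⟩)
    · obtain ⟨y, hy, hyx⟩ := h4.1 X hX N hN c
      have h6 : x = y := Units.ext (hx.trans hyx.symm)
      rw [h6]
      exact hy
    · exact h4.2 hz hx
  exact ⟨⟨h1, T, hT, hPT⟩, fun x hx => ⟨h5 x hx, h2 x (h5 x hx), h3 x (h5 x hx)⟩⟩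

end Pool.Agent.Results.MP_470b79_ag.TypeA1Fullness
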